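import Mathlib
import Pool.Agent.helper27.Fil.Defs
import Pool.Agent.helper27.Fil.Core
import Pool.Agent.helper24.FilInd
import Pool.Agent.helper24.FilGauss
import Pool.Agent.helper11.FilRed
import Pool.Agent.helper11.FilGam

/-!
Filliman's conjecture on minimal projections of the regular simplex (MP_3bca80_gt, Q1),
for all `1 ≤ k ≤ n`.
-/

namespace Fil27

open MeasureTheory ProbabilityTheory
open scoped RealInnerProductSpace

/-- The core estimate. -/
theorem core {ι : Type*} [Fintype ι] [DecidableEq ι] {d : ℕ} (h : V d →ₗ[ℝ] ℝ) (z : ι → V d)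
    (hz : ∀ i, h (z i) = 1) (hI : frameM (fun _ => 1) z = 1) :
    ENNReal.ofReal (Real.exp (1 / 2 * (∑ i, ‖z i‖ ^ 2 * Real.log (‖z i‖ ^ 2) +
      Real.sqrt 2 / Real.pi * ∑ i, ∑ j ∈ Finset.univ.erase i,
        ⟪z i, z j⟫ ^ 2 * (1 - |⟪z i, z j⟫| / (‖z i‖ * ‖z j‖))))) ≤ coneInt h z := by
  refine le_trans ?_ (core_abs hasDerivAt_gE (fun x => (gE_pos x).le) continuous_gr gr_pos
    integrable_gE integral_gE integrable_log_gr integral_log_gr h z hz hI)
  refine ENNReal.ofReal_le_ofReal (Real.exp_le_exp.2 ?_)
  refine mul_le_mul_of_nonneg_left ?_ (by norm_num)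
  refine add_le_add le_rfl (mul_le_mul_of_nonneg_right Gam.gam0_ge ?_)
  refine Finset.sum_nonneg fun i _ => Finset.sum_nonneg fun j _ => ?_
  refine mul_nonneg (sq_nonneg _) ?_
  have h1 : |⟪z i, z j⟫| / (‖z i‖ * ‖z j‖) ≤ 1 :=
    div_le_one_of_le₀ (abs_real_inner_le_norm _ _) (by positivity)
  linarith

/-- The cone theorem. -/
theorem cone_theorem : Red.ConeTheorem := fun _ _ hd hN h z hz =>
  Fil24.cone_theorem_of_core (fun h z hz hI => core h z hz hI) hd hN h z hz

end Fil27

namespace Pool.Agent.Results.MP_3bca80_gt.FillimanLowerBound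

open MeasureTheory

/-- The volume (in the Euclidean space `E`) of the orthogonal projection of `K` to the
subspace `E`. -/
noncomputable def projVol {F : Type} [NormedAddCommGroup F] [InnerProductSpace ℝ F]
    [FiniteDimensional ℝ F] [MeasurableSpace F] [BorelSpace F] (E : Submodule ℝ F) (K : Set F) :
    ENNReal :=
  volume (E.orthogonalProjectionOnto '' K)

/-- The span of the differences of points of the family `v` that have the same colour. -/
def colourSpan {F : Type} [AddCommGroup F] [Module ℝ F] {ι κ : Type} (v : ι → F) (c : ι → κ) :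
    Submodule ℝ F :=
  Submodule.span ℝ {x | ∃ i j, c i = c j ∧ x = v i - v j}

/-- **Filliman's conjecture Q1.** Let `v 0, ..., v n` be the vertices of a regular simplex of edge
length `√2` in `ℝⁿ`, and let `1 ≤ k ≤ n`, `n + 1 = (k + 1) ℓ + r` with `r ≤ k`. Let `c` colour
the vertices with `k + 1` colours such that `r` classes have `ℓ + 1` elements and the
others have `ℓ`. Let `W = colourSpan v c`. Then `Wᗮ` has dimension `k`, and the orthogonal projection of the simplex to `Wᗮ` has the smallest
`k`-dimensional volume among all orthogonal projections of the simplex to `k`-dimensional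
subspaces. -/
theorem result {k n : ℕ} (hk : 1 ≤ k) (hkn : k ≤ n)
    (v : Fin (n + 1) → EuclideanSpace ℝ (Fin n))
    (hv : ∀ i j, i ≠ j → dist (v i) (v j) = Real.sqrt 2)
    (ℓ r : ℕ) (hr : r ≤ k) (hn : n + 1 = (k + 1) * ℓ + r)
    (c : Fin (n + 1) → Fin (k + 1))
    (hc1 : {b : Fin (k + 1) | {i : Fin (n + 1) | c i = b}.ncard = ℓ + 1}.ncard = r)
    (hc2 : {b : Fin (k + 1) | {i : Fin (n + 1) | c i = b}.ncard = ℓ}.ncard = k + 1 - r) :
    Module.finrank ℝ (colourSpan v c)ᗮ = k ∧
    ∀ E : Submodule ℝ (EuclideanSpace ℝ (Fin n)), Module.finrank ℝ E = k →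
      projVol (colourSpan v c)ᗮ (convexHull ℝ (Set.range v)) ≤
        projVol E (convexHull ℝ (Set.range v)) := by
  have hl : (n + 1) / (k + 1) = ℓ := by
    rw [hn, Nat.mul_add_div (by omega), Nat.div_eq_of_lt (by omega), add_zero]
  have hc : ∀ b, (Finset.univ.filter (fun i => c i = b)).card = (n + 1) / (k + 1) ∨
      (Finset.univ.filter (fun i => c i = b)).card = (n + 1) / (k + 1) + 1 := by
    intro b
    rw [hl]
    have key : ∀ b, {i : Fin (n + 1) | c i = b}.ncard =
        (Finset.univ.filter (fun i => c i = b)).card := by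
      intro b
      rw [Set.ncard_eq_toFinset_card', Set.toFinset_ofPred]
    simp only [key] at hc1 hc2
    rw [Set.ncard_eq_toFinset_card', Set.toFinset_ofPred] at hc1 hc2
    have hdisj : Disjoint
        (Finset.univ.filter fun b => (Finset.univ.filter (fun i => c i = b)).card = ℓ + 1)
        (Finset.univ.filter fun b => (Finset.univ.filter (fun i => c i = b)).card = ℓ) := by
      rw [Finset.disjoint_filter]
      intro x _ h1 h2
      omega
    have hcard := Finset.card_union_of_disjoint hdisj
    rw [hc1, hc2] at hcard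
    have huniv : ((Finset.univ.filter fun b => (Finset.univ.filter (fun i => c i = b)).card = ℓ + 1) ∪
        (Finset.univ.filter fun b => (Finset.univ.filter (fun i => c i = b)).card = ℓ)) =
        Finset.univ := by
      apply Finset.eq_univ_of_card
      rw [hcard, Fintype.card_fin]
      omega
    have hb := Finset.mem_univ b
    rw [← huniv, Finset.mem_union, Finset.mem_filter, Finset.mem_filter] at hb
    rcases hb with hb | hb
    · exact Or.inr hb.2
    · exact Or.inl hb.2
  exact Fil27.Red.filliman v hv Fil27.cone_theorem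
    (fun d h z hz => Fil27.coneInt_basis h z hz) hkn c hc

end Pool.Agent.Results.MP_3bca80_gt.FillimanLowerBound
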